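import Pool.Agent.Helper57.KL.Tr
import Pool.Agent.Helper1.KL.Stmts2

set_option autoImplicit false

/-!
Project KL (MP_0b9e0b_ag), KL-14b: the final points with `e = c`.
-/

namespace Pool.Agent.Helper66.KL

open Pool.Agent.Helper16 Pool.Agent.Helper1.KL Pool.Agent.Helper57.KL Finset

/-- A solution of `x ^ p = x` lies in the prime field. -/
theorem exists_cast_of_pow {p : ℕ} [Fact p.Prime] {N : Type} [Field N] [CharP N p] {x : N}
    (hx : x ^ p = x) : ∃ c : ZMod p, x = c.cast := by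
  have h1 : x ∈ (⊥ : Subfield N) := (Subfield.mem_bot_iff_pow_eq_self N p).2 hx
  rw [← ZMod.fieldRange_castHom_eq_bot p] at h1
  obtain ⟨c, hc⟩ := h1
  exact ⟨c, hc.symm⟩

section lin

variable {k : Type} [Field k] {p n : ℕ} [Fact p.Prime] {b : Fin n → k}
  {N : Type} [Field N] [CharP N p]

theorem cast_mul' (c d : ZMod p) : ((c * d : ZMod p).cast : N) = c.cast * d.cast := by
  have e : ∀ c : ZMod p, (c.cast : N) = ZMod.castHom (dvd_refl p) N c := fun c => rfl
  rw [e, e, e, map_mul]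

theorem ec_smul (c : ZMod p) (ρ : Fin n → ZMod p) (z : Fin n ⊕ Fin n → Option N) :
    ec (c • ρ) z = c.cast * ec ρ z := by
  unfold ec
  rw [mul_sum]
  refine sum_congr rfl fun i _ => ?_
  rw [Pi.smul_apply, smul_eq_mul, cast_mul', mul_assoc]

theorem Xc_smul (c : ZMod p) (ρ : Fin n → ZMod p) (z : Fin n ⊕ Fin n → Option N) :
    Xc (c • ρ) z = c.cast * Xc ρ z := by
  unfold Xc
  rw [mul_sum]
  refine sum_congr rfl fun i _ => ?_
  rw [Pi.smul_apply, smul_eq_mul, cast_mul', mul_assoc]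

theorem Bc_smul [Algebra (RatFunc k) N] (c : ZMod p) (ρ : Fin n → ZMod p)
    (z : Fin n ⊕ Fin n → Option N) : Bc b (c • ρ) z = c.cast * Bc b ρ z := by
  unfold Bc
  rw [mul_sum]
  refine sum_congr rfl fun i _ => ?_
  rw [Pi.smul_apply, smul_eq_mul, cast_mul', mul_assoc, mul_assoc, mul_assoc]

end lin

variable {k : Type} [Field k] {p : ℕ} [Fact p.Prime] [CharP k p] {n : ℕ} {b : Fin n → k} {r : ℕ}

/-- The case `c ≠ 0`. -/
theorem mem_of_ne {N : Type} [Field N] [Algebra k N] [Algebra (RatFunc k) N]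
    [IsScalarTower k (RatFunc k) N] {I : Finset (Fin n)} {z : Fin n ⊕ Fin n → Option N}
    {ρ : Fin n → ZMod p} (hz : Good p b r I z) (hv : Vert k r z) (hX : Xc ρ z = 0)
    (hB : Bc b ρ z = 0) {c : ZMod p} (hc : c ≠ 0) (he : ec ρ z = c.cast) :
    SS p b r ρ z ∈ ⨆ (c : ZMod p) (_ : c ≠ 0), SP p b r I (c • ρ) (P1 k p b r (c • ρ)) := by
  have := charP_alg (k := k) (p := p) N
  refine Submodule.mem_iSup_of_mem c⁻¹ (Submodule.mem_iSup_of_mem (inv_ne_zero hc) ?_)
  refine Submodule.subset_span ⟨N, inferInstance, inferInstance, inferInstance, inferInstance, z,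
    hz, ⟨hv, ?_, ?_, ?_⟩, ?_⟩
  · rw [Xc_smul, hX, mul_zero]
  · rw [Bc_smul, hB, mul_zero]
  · rw [ec_smul, he, ← cast_mul', inv_mul_cancel₀ hc]
    exact ZMod.cast_one (dvd_refl p)
  · exact (SS_smul (inv_ne_zero hc) ρ z).symm

theorem modE (hb : ∀ i, b i ≠ 0) : ModE k p b r := by
  classical
  intro N _ _ _ _ I z ρ hz hρI hρ hv hX hB
  have := charP_alg (k := k) (p := p) N
  have h1 : ec ρ z ^ p = ec ρ z := by
    have h := as_eq hz.mem hb ρ
    rw [hX, hB, mul_zero, add_zero, sub_eq_zero] at h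
    exact h
  obtain ⟨c, hc⟩ := exists_cast_of_pow h1
  by_cases h0 : c = 0
  · subst h0
    have he : ec ρ z = 0 := by rw [hc]; exact ZMod.cast_zero
    obtain ⟨i, hi⟩ : ∃ i, ρ i ≠ 0 := by
      by_contra hcon
      push Not at hcon
      exact hρ (funext hcon)
    set h : Fin n → ZMod p := Pi.single i (ρ i)⁻¹ with hh
    have h2 : ∑ j, ρ j * h j = 1 := by
      rw [sum_eq_single i]
      · rw [hh, Pi.single_eq_same, mul_inv_cancel₀ hi]
      · intro j _ hj
        rw [hh, Pi.single_eq_of_ne hj, mul_zero]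
      · intro h
        exact absurd (mem_univ i) h
    have h3 := sum_SS_tr (p := p) (b := b) (r := r) h2 z
    rw [← Finset.add_sum_erase univ _ (mem_univ (0 : ZMod p)), zero_smul, tr_zero] at h3
    have h4 : SS p b r ρ z = SS p b r 0 z -
        ∑ c ∈ univ.erase (0 : ZMod p), SS p b r ρ (tr (c • h) z) := by
      rw [← h3, add_sub_cancel_right]
    rw [h4]
    refine sub_mem (Submodule.mem_sup_left (Submodule.mem_span_singleton_self _))
      (Submodule.mem_sup_right (Submodule.sum_mem _ fun c hc => ?_))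
    have hc0 : c ≠ 0 := (mem_erase.1 hc).1
    refine mem_of_ne (Good.tr hz (c • h)) hv ?_ ?_ hc0 ?_
    · rw [Xc_tr, hX]
    · rw [Bc_tr, hB]
    · rw [Good.ec_tr hz hb hρI, he, zero_add]
      congr 1
      have h5 : ∑ i, ρ i * (c • h) i = c * ∑ i, ρ i * h i := by
        rw [mul_sum]
        exact sum_congr rfl fun i _ => by rw [Pi.smul_apply, smul_eq_mul]; ring
      rw [h5, h2, mul_one]
  · exact Submodule.mem_sup_right (mem_of_ne hz hv hX hB h0 hc)

end Pool.Agent.Helper66.KL
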